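import Mathlib

set_option autoImplicit false

namespace Pool.Agent.Results.MP_a5fab4_co.Disproof

/-- The independent domination number: the smallest cardinality of a maximal independent set. -/
noncomputable def indepDom {V : Type} [Fintype V] (G : SimpleGraph V) : ℕ :=
  sInf {k : ℕ | ∃ S : Finset V, Maximal (fun T : Finset V => G.IsIndepSet (T : Set V)) S ∧ S.card = k}

/-- The smallest cardinality of a maximal clique. -/
noncomputable def minMaxClique {V : Type} [Fintype V] (G : SimpleGraph V) : ℕ :=
  sInf {k : ℕ | ∃ S : Finset V, Maximal (fun T : Finset V => G.IsClique (T : Set V)) S ∧ S.card = k}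

/-- `N` is the lower Ramsey number of the pair `l`, `m`: the largest `n` such that every graph of order `n`
has independent domination number at most `l` or a maximal clique with at most `m` vertices. -/
def IsLowerRamsey (l m N : ℕ) : Prop :=
  IsGreatest {n : ℕ | ∀ G : SimpleGraph (Fin n), indepDom G ≤ l ∨ minMaxClique G ≤ m} N

/-- Adjacency of the split graph on 25 vertices: the clique is `0..14`, the independent set is `15..24`. -/
def A (u v : Fin 25) : Bool :=
  u != v && ((decide (u.val < 15) && decide (v.val < 15)) ||
    (decide (u.val < 15) && decide (15 ≤ v.val) && decide (4 ≤ (v.val + 60 - 15 - 4 * u.val) % 10)) ||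
    (decide (v.val < 15) && decide (15 ≤ u.val) && decide (4 ≤ (u.val + 60 - 15 - 4 * v.val) % 10)))

theorem A_symm : ∀ u v : Fin 25, A u v = true → A v u = true := by decide +kernel

theorem A_irrefl : ∀ u : Fin 25, A u u = false := by decide +kernel

/-- The split graph. -/
def gr : SimpleGraph (Fin 25) where
  Adj u v := A u v = true
  symm := ⟨fun u v h => A_symm u v h⟩
  loopless := ⟨fun u h => by rw [A_irrefl u] at h; exact absurd h (by simp)⟩

theorem cardQ : ∀ q : Fin 25, q.val < 15 →
    5 ≤ (Finset.univ.filter (fun w : Fin 25 => w = q ∨ (15 ≤ w.val ∧ A q w = false))).card := by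
  decide +kernel

theorem cardI : ∀ v : Fin 25, 15 ≤ v.val →
    10 ≤ (Finset.univ.filter (fun w : Fin 25 => w = v ∨ (w.val < 15 ∧ A v w = true))).card := by
  decide +kernel

theorem cardAllI : 5 ≤ (Finset.univ.filter (fun w : Fin 25 => 15 ≤ w.val)).card := by
  decide +kernel

theorem cardAllQ : 10 ≤ (Finset.univ.filter (fun w : Fin 25 => w.val < 15)).card := by
  decide +kernel

theorem adj_QQ : ∀ u v : Fin 25, u.val < 15 → v.val < 15 → u ≠ v → A u v = true := by decide +kernel

theorem adj_II : ∀ u v : Fin 25, 15 ≤ u.val → 15 ≤ v.val → A u v = false := by decide +kernel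

theorem indep_closed {S : Finset (Fin 25)}
    (hS : Maximal (fun T : Finset (Fin 25) => gr.IsIndepSet (T : Set (Fin 25))) S) (v : Fin 25)
    (hv : ∀ u ∈ S, A v u = false) : v ∈ S := by
  by_contra hvS
  have h1 : gr.IsIndepSet ((insert v S : Finset (Fin 25)) : Set (Fin 25)) := by
    rw [SimpleGraph.isIndepSet_iff]
    intro a ha b hb hab
    simp only [Finset.coe_insert, Set.mem_insert_iff, Finset.mem_coe] at ha hb
    have hSi := hS.prop
    rw [SimpleGraph.isIndepSet_iff] at hSi
    rcases ha with rfl | ha
    · rcases hb with rfl | hb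
      · exact absurd rfl hab
      · intro h
        have h' : A a b = true := h
        rw [hv b hb] at h'
        exact absurd h' (by simp)
    · rcases hb with rfl | hb
      · intro h
        have h' : A b a = true := A_symm _ _ h
        rw [hv a ha] at h'
        exact absurd h' (by simp)
      · exact hSi ha hb hab
  have h2 := hS.le_of_ge h1 (Finset.subset_insert v S)
  exact hvS (h2 (Finset.mem_insert_self v S))

theorem clique_closed {S : Finset (Fin 25)}
    (hS : Maximal (fun T : Finset (Fin 25) => gr.IsClique (T : Set (Fin 25))) S) (v : Fin 25)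
    (hv : ∀ u ∈ S, v ≠ u → A v u = true) : v ∈ S := by
  by_contra hvS
  have h1 : gr.IsClique ((insert v S : Finset (Fin 25)) : Set (Fin 25)) := by
    rw [SimpleGraph.isClique_iff]
    intro a ha b hb hab
    simp only [Finset.coe_insert, Set.mem_insert_iff, Finset.mem_coe] at ha hb
    have hSi := hS.prop
    rw [SimpleGraph.isClique_iff] at hSi
    rcases ha with rfl | ha
    · rcases hb with rfl | hb
      · exact absurd rfl hab
      · exact hv b hb hab
    · rcases hb with rfl | hb
      · exact A_symm _ _ (hv a ha hab.symm)
      · exact hSi ha hb hab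
  have h2 := hS.le_of_ge h1 (Finset.subset_insert v S)
  exact hvS (h2 (Finset.mem_insert_self v S))

theorem indep_card {S : Finset (Fin 25)}
    (hS : Maximal (fun T : Finset (Fin 25) => gr.IsIndepSet (T : Set (Fin 25))) S) : 5 ≤ S.card := by
  have hSi := hS.prop
  rw [SimpleGraph.isIndepSet_iff] at hSi
  by_cases hq : ∃ q ∈ S, q.val < 15
  · obtain ⟨q, hqS, hq15⟩ := hq
    have hI : ∀ u ∈ S, u ≠ q → 15 ≤ u.val := by
      intro u hu huq
      by_contra hlt
      push Not at hlt
      exact hSi hu hqS huq (adj_QQ u q hlt hq15 huq)
    refine (cardQ q hq15).trans (Finset.card_le_card ?_)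
    intro w hw
    simp only [Finset.mem_filter, Finset.mem_univ, true_and] at hw
    rcases hw with rfl | ⟨hw1, hw2⟩
    · exact hqS
    · apply indep_closed hS
      intro u hu
      by_cases huq : u = q
      · subst huq
        by_contra hc
        have hc' : A w u = true := by simpa using hc
        rw [A_symm w u hc'] at hw2
        exact absurd hw2 (by simp)
      · exact adj_II w u hw1 (hI u hu huq)
  · push Not at hq
    refine cardAllI.trans (Finset.card_le_card ?_)
    intro w hw
    simp only [Finset.mem_filter, Finset.mem_univ, true_and] at hw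
    apply indep_closed hS
    intro u hu
    exact adj_II w u hw (hq u hu)

theorem clique_card {S : Finset (Fin 25)}
    (hS : Maximal (fun T : Finset (Fin 25) => gr.IsClique (T : Set (Fin 25))) S) : 10 ≤ S.card := by
  have hSi := hS.prop
  rw [SimpleGraph.isClique_iff] at hSi
  by_cases hq : ∃ q ∈ S, 15 ≤ q.val
  · obtain ⟨q, hqS, hq15⟩ := hq
    have hI : ∀ u ∈ S, u ≠ q → u.val < 15 := by
      intro u hu huq
      by_contra hlt
      push Not at hlt
      have h1 : A u q = true := hSi hu hqS huq
      rw [adj_II u q hlt hq15] at h1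
      exact absurd h1 (by simp)
    refine (cardI q hq15).trans (Finset.card_le_card ?_)
    intro w hw
    simp only [Finset.mem_filter, Finset.mem_univ, true_and] at hw
    rcases hw with rfl | ⟨hw1, hw2⟩
    · exact hqS
    · apply clique_closed hS
      intro u hu hwu
      by_cases huq : u = q
      · subst huq
        exact A_symm _ _ hw2
      · exact adj_QQ w u hw1 (hI u hu huq) hwu
  · push Not at hq
    refine cardAllQ.trans (Finset.card_le_card ?_)
    intro w hw
    simp only [Finset.mem_filter, Finset.mem_univ, true_and] at hw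
    apply clique_closed hS
    intro u hu hwu
    exact adj_QQ w u hw (hq u hu) hwu

theorem five_le : 5 ≤ indepDom gr := by
  unfold indepDom
  apply le_csInf
  · obtain ⟨S, -, hS⟩ := Finite.exists_le_maximal
      (p := fun T : Finset (Fin 25) => gr.IsIndepSet (T : Set (Fin 25))) (a := ∅) (by simp)
    exact ⟨S.card, S, hS, rfl⟩
  · rintro k ⟨S, hS, rfl⟩
    exact indep_card hS

theorem ten_le : 10 ≤ minMaxClique gr := by
  unfold minMaxClique
  apply le_csInf
  · obtain ⟨S, -, hS⟩ := Finite.exists_le_maximal
      (p := fun T : Finset (Fin 25) => gr.IsClique (T : Set (Fin 25))) (a := ∅) (by simp)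
    exact ⟨S.card, S, hS, rfl⟩
  · rintro k ⟨S, hS, rfl⟩
    exact clique_card hS

/-- It is not true that the lower Ramsey number of every pair of positive integers `l`, `m` with
`⌊m/2⌋ ≤ l ≤ m` equals `2(l+m)-1`; the pair `l = 4`, `m = 9` is a counterexample. -/
theorem result : ¬ ∀ l m : ℕ, 0 < l → 0 < m → m / 2 ≤ l → l ≤ m →
    IsLowerRamsey l m (2 * (l + m) - 1) := by
  intro h
  have h1 := (h 4 9 (by norm_num) (by norm_num) (by norm_num) (by norm_num)).1
  have h2 := h1 gr
  rcases h2 with h2 | h2
  · have := five_le
    omega
  · have := ten_le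
    omega

end Pool.Agent.Results.MP_a5fab4_co.Disproof
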